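import Pool.Agent.R527.AP.Final
import Pool.Agent.R527.AP.Compat
import Pool.Agent.R527.AP.Count
import Pool.Agent.R527.AP.Kill
import Pool.Agent.R527.AP.Long
import Pool.Agent.R527.AP.Carry
import Pool.Agent.R527.AP.Calc
import Pool.Agent.R527.AP.Occ
import Pool.Agent.R527.AP.Match
import Pool.Agent.R527.TIL.Hall

/-!
Intersecting families of one-dimensional tilings: the bound `a_{n-ℓ}` for arithmetic progressions
of tile lengths `{ℓ, ℓ+d, ..., ℓ+rd}` with `(r+1) gcd(ℓ,d) ≤ ℓ`, in particular for all two-element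
sets `{a,b}` with `a < b`, `a ∤ b`, and for all intervals `{ℓ, ..., k}` with `ℓ < k < 2ℓ`.
-/

namespace Pool.Agent.Results.MP_2dc627_co.ArithmeticProgressions

/-- A tiling is the list `[x₁, ..., x_k]` of its tile lengths from left to right. Its tiles: the
pair `(i, x)` stands for the interval `[i+1, i+x]`. -/
def tiles (T : List ℕ) : Set (ℕ × ℕ) :=
  {p | ∃ L R : List ℕ, T = L ++ p.2 :: R ∧ L.sum = p.1}

/-- `T` is a `Λ`-tiling of `[n]`. -/
def IsTiling (Λ : Finset ℕ) (n : ℕ) (T : List ℕ) : Prop := (∀ x ∈ T, x ∈ Λ) ∧ T.sum = n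

/-- The statement of Q1 for the set `Λ` (with least element `l`). -/
def Bound (Λ : Finset ℕ) (l : ℕ) : Prop :=
  ∃ N : ℕ, l ≤ N ∧ ∀ n ≥ N, ∀ F : Set (List ℕ), (∀ T ∈ F, IsTiling Λ n T) →
    (∀ T ∈ F, ∀ U ∈ F, T ≠ U → (tiles T ∩ tiles U).Nonempty) →
    F.ncard ≤ {T | IsTiling Λ (n - l) T}.ncard

open Pool.Agent.R527

theorem result (l d r : ℕ) (hl : 0 < l) (hd : 0 < d) (hr : 1 ≤ r)
    (h : (r + 1) * Nat.gcd l d ≤ l) :
    Bound ((Finset.range (r + 1)).image fun i => l + i * d) l := by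
  have hC := AP.t_CARRY AP.t_CALC
  have hL := AP.t_LONG AP.t_OCC AP.t_CALC hC
  have hK := AP.t_KILL AP.t_OCC AP.t_CALC hC hL
  have hCount := AP.t_COUNT AP.t_OCC AP.t_CALC hK hL
  obtain ⟨N, hN⟩ := AP.t_FINAL hCount (AP.t_MATCH AP.t_OCC TIL.t_HALL) AP.t_COMPAT l d r hl hd hr h
  refine ⟨max N l, le_max_right _ _, ?_⟩
  intro n hn F hF hI
  by_cases hfin : F.Finite
  · have := hN n (le_trans (le_max_left _ _) hn) hfin.toFinset
      (fun T hT => hF T (by simpa using hT))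
      (fun T hT U hU hne => by
        obtain ⟨p, ⟨L, R, h1, h2⟩, ⟨L', R', h3, h4⟩⟩ :=
          hI T (by simpa using hT) U (by simpa using hU) hne
        exact ⟨L, R, L', R', p.2, h1, h3, h2.trans h4.symm⟩)
    rw [Set.ncard_eq_toFinset_card F hfin]
    exact this
  · rw [Set.Infinite.ncard hfin]
    exact Nat.zero_le _

end Pool.Agent.Results.MP_2dc627_co.ArithmeticProgressions
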